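import Mathlib
import Pool.Agent.helper18.Rot.Defs
import Pool.Agent.helper31.Rot.G
import Pool.Agent.helper31.Rot.Cb

/-!
# mod:step — change of the sheet in one step
-/

open Topology Filter Set
open scoped unitInterval

namespace Pool.Agent.helper67.Rot

open Pool.Agent.helper18.Rot Pool.Agent.helper18.Rot.Par
open Pool.Agent.helper31.Rot

/-! ### arguments -/

theorem arg_mul_cases {g z : ℂ} (hg : g ≠ 0) (hz : z ≠ 0) :
    ∃ k : ℤ, Complex.arg g + Complex.arg z = Complex.arg (g * z) + 2 * Real.pi * k := by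
  have h := Complex.arg_mul_coe_angle hg hz
  rw [← Real.Angle.coe_add, eq_comm, Real.Angle.angle_eq_iff_two_pi_dvd_sub] at h
  obtain ⟨k, hk⟩ := h
  exact ⟨k, by linarith⟩

theorem abs_arg_lt {z : ℂ} (hz : 0 < z.re) :
    -(Real.pi / 2) < Complex.arg z ∧ Complex.arg z < Real.pi / 2 := by
  have := Complex.abs_arg_lt_pi_div_two_iff.mpr (Or.inl hz)
  rw [abs_lt] at this
  exact this

/-- an integer `k` with `-1 < k < 1` is `0` -/
theorem int_eq_zero {k : ℤ} (h1 : -1 < (k : ℝ)) (h2 : (k : ℝ) < 1) : k = 0 := by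
  have h1' : -1 < k := by exact_mod_cast h1
  have h2' : k < 1 := by exact_mod_cast h2
  omega

theorem no_wrap_upper {g z : ℂ} (hg : g ≠ 0) (hz : 0 < z.re) (h1 : 0 ≤ g.im)
    (h2 : 0 ≤ (g * z).im) :
    Complex.arg g + Complex.arg z ∈ Ioc (-Real.pi) Real.pi := by
  have hz0 : z ≠ 0 := fun h => by simp [h] at hz
  obtain ⟨k, hk⟩ := arg_mul_cases hg hz0
  have hpi := Real.pi_pos
  have a1 := Complex.arg_nonneg_iff.mpr h1
  have a2 := Complex.arg_nonneg_iff.mpr h2
  have b1 := Complex.arg_le_pi g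
  have b2 := Complex.arg_le_pi (g * z)
  obtain ⟨c1, c2⟩ := abs_arg_lt hz
  have hk0 : k = 0 := by
    apply int_eq_zero
    · nlinarith
    · nlinarith
  rw [hk0] at hk
  constructor <;> push_cast at hk <;> linarith

theorem no_wrap_lower {g z : ℂ} (hg : g ≠ 0) (hz : 0 < z.re) (h1 : g.im < 0)
    (h2 : (g * z).im < 0) :
    Complex.arg g + Complex.arg z ∈ Ioc (-Real.pi) Real.pi := by
  have hz0 : z ≠ 0 := fun h => by simp [h] at hz
  obtain ⟨k, hk⟩ := arg_mul_cases hg hz0
  have hpi := Real.pi_pos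
  have a1 := Complex.arg_neg_iff.mpr h1
  have a2 := Complex.arg_neg_iff.mpr h2
  have b1 := Complex.neg_pi_lt_arg g
  have b2 := Complex.neg_pi_lt_arg (g * z)
  obtain ⟨c1, c2⟩ := abs_arg_lt hz
  have hk0 : k = 0 := by
    apply int_eq_zero
    · nlinarith
    · nlinarith
  rw [hk0] at hk
  constructor <;> push_cast at hk <;> linarith

theorem no_wrap_right {g z : ℂ} (hz : 0 < z.re) (h1 : 0 < g.re) :
    Complex.arg g + Complex.arg z ∈ Ioc (-Real.pi) Real.pi := by
  obtain ⟨c1, c2⟩ := abs_arg_lt hz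
  obtain ⟨c3, c4⟩ := abs_arg_lt h1
  constructor <;> linarith

theorem wrap {g z : ℂ} (hg : g ≠ 0) (hz : 0 < z.re) (h1 : 0 ≤ g.im) (h1' : g.re < 0)
    (h2 : (g * z).im < 0) :
    Real.pi < Complex.arg g + Complex.arg z := by
  have hz0 : z ≠ 0 := fun h => by simp [h] at hz
  obtain ⟨k, hk⟩ := arg_mul_cases hg hz0
  have hpi := Real.pi_pos
  have a1 : Real.pi / 2 < Complex.arg g := by
    by_contra hcon
    rcases Complex.arg_le_pi_div_two_iff.mp (not_lt.mp hcon) with h | h <;> linarith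
  have a2 := Complex.arg_neg_iff.mpr h2
  have b1 := Complex.arg_le_pi g
  have b2 := Complex.neg_pi_lt_arg (g * z)
  obtain ⟨c1, c2⟩ := abs_arg_lt hz
  have hk0 : k = 1 := by
    have : (k : ℝ) - 1 = ((k - 1 : ℤ) : ℝ) := by push_cast; ring
    have h3 : k - 1 = 0 := by
      apply int_eq_zero
      · rw [← this]; nlinarith
      · rw [← this]; nlinarith
    omega
  rw [hk0] at hk
  push_cast at hk
  linarith

/-! ### numbering -/

theorem lb_same {g z w w' : ℂ} (hg : g ≠ 0) (hz : 0 < z.re) (hw : w ^ 3 = g)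
    (hw' : w' ^ 3 = g * z) (hww : w' = w * cb z)
    (h : Complex.arg g + Complex.arg z ∈ Ioc (-Real.pi) Real.pi) :
    lb (g * z) w' = lb g w := by
  have hz0 : z ≠ 0 := fun h => by simp [h] at hz
  rw [eq_lb_iff (mul_ne_zero hg hz0) hw']
  have h1 := (eq_lb_iff hg hw (lb g w)).mp rfl
  rw [hww, cb_mul_of_abs_arg hg hz0 h]
  nth_rewrite 1 [h1]
  ring

theorem lb_succ {g z w w' : ℂ} (hg : g ≠ 0) (hz : 0 < z.re) (hw : w ^ 3 = g)
    (hw' : w' ^ 3 = g * z) (hww : w' = w * cb z)
    (h : Real.pi < Complex.arg g + Complex.arg z) :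
    lb (g * z) w' = lb g w + 1 := by
  have hz0 : z ≠ 0 := fun h => by simp [h] at hz
  rw [eq_lb_iff (mul_ne_zero hg hz0) hw']
  have h1 := (eq_lb_iff hg hw (lb g w)).mp rfl
  have h2 : om ^ (lb g w + 1).val = om ^ (lb g w).val * om := by
    rw [ZMod.val_add, ← pow_succ, ZMod.val_one'' (by norm_num)]
    exact (pow_eq_pow_mod _ om_pow).symm
  rw [hww, h2, mul_assoc, ← cb_mul_of_gt hg hz0 h]
  nth_rewrite 1 [h1]
  ring

/-! ### the step -/

variable (P : Par)

theorem coe_fract' (x : ℝ) : ((Int.fract x : ℝ) : UnitAddCircle) = (x : UnitAddCircle) := by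
  rw [Int.fract, AddCircle.coe_sub]
  have : (((⌊x⌋ : ℤ) : ℝ) : UnitAddCircle) = 0 := by
    rw [AddCircle.coe_eq_zero_iff]
    exact ⟨⌊x⌋, by simp⟩
  rw [this, sub_zero]

theorem coe_sub_one (y : ℝ) : (((y - 1 : ℝ)) : UnitAddCircle) = (y : UnitAddCircle) := by
  rw [AddCircle.coe_sub]
  have : ((1 : ℝ) : UnitAddCircle) = 0 := AddCircle.coe_period 1
  rw [this, sub_zero]

/-- bounds on the quotient for a move of at most `tau` -/
theorem move_le (i : Fin 2) (q : UnitAddCircle × UnitAddCircle) {t : ℝ} (h0 : 0 ≤ t)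
    (ht : t ≤ P.tau q) : ‖P.G i (P.mv t q) - P.G i q‖ ≤ 3 / 100 * ‖P.G i q‖ := by
  have h1 := norm_G_sub_le P i q (P.al * t) t
  have h2 : P.tau q ≤ 1 / 100 * ‖P.G i q‖ := by
    unfold Par.tau
    apply mul_le_mul_of_nonneg_left _ (by norm_num)
    fin_cases i
    · exact min_le_left _ _
    · exact min_le_right _ _
  have h3 : |P.al * t| ≤ 1 / 8 * t := by
    rw [abs_mul, abs_of_pos P.al_pos, abs_of_nonneg h0]
    exact mul_le_mul_of_nonneg_right P.al_lt.le h0
  rw [abs_of_nonneg h0] at h1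
  unfold Par.mv
  linarith

theorem sheet_step (p p' : P.Surf) (hp : ∀ i, P.G i p.1.1 ≠ 0) {t X Y : ℝ}
    (ht0 : 0 ≤ t) (ht : t ≤ P.tau p.1.1) (hX : p.1.1.1 = (X : UnitAddCircle))
    (hY : p.1.1.2 = (Y : UnitAddCircle)) (hY0 : 0 < Y) (hY1 : Y ≤ 1) (hp' : p'.1 = P.psi t p.1) :
    (Y + t ≤ 1 → P.sheet p' = P.sheet p) ∧
    (1 < Y + t → P.sheet p' = P.sheet p + P.inc (Int.fract (X + (1 - Y) * P.al))) := by
  -- basic facts
  have ht' : t ≤ 1 / 100 := by
    have h1 : P.tau p.1.1 ≤ 1 / 100 * ‖P.G 0 p.1.1‖ := by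
      unfold Par.tau
      exact mul_le_mul_of_nonneg_left (min_le_left _ _) (by norm_num)
    have h2 := norm_G_le P 0 p.1.1
    linarith
  set g : Fin 2 → ℂ := fun i => P.G i p.1.1 with hgdef
  set z : Fin 2 → ℂ := fun i => P.G i (P.mv t p.1.1) / P.G i p.1.1 with hzdef
  have hgz : ∀ i, g i * z i = P.G i (P.mv t p.1.1) := fun i => by
    simp only [hgdef, hzdef]
    field_simp [hp i]
  have hz : ∀ i, 0 < (z i).re := by
    intro i
    have h1 := move_le P i p.1.1 ht0 ht
    have h2 : 0 < ‖P.G i p.1.1‖ := norm_pos_iff.mpr (hp i)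
    have h3 : ‖z i - 1‖ ≤ 3 / 100 := by
      simp only [hzdef]
      rw [div_sub_one (hp i), norm_div, div_le_iff₀ h2]
      exact h1
    have h4 := Complex.abs_re_le_norm (z i - 1)
    rw [Complex.sub_re, Complex.one_re] at h4
    have h5 := abs_le.mp (h4.trans h3)
    linarith [h5.1]
  have hq : p.1.1 = ((X : UnitAddCircle), (Y : UnitAddCircle)) := Prod.ext hX hY
  have hnew : p'.1.1 = P.mv t p.1.1 := by rw [hp']; rfl
  have hmv : P.mv t p.1.1 = (((X + P.al * t : ℝ) : UnitAddCircle),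
      ((Y + t : ℝ) : UnitAddCircle)) := by
    rw [hq]; rfl
  have hw' : ∀ i, p'.1.2 i = p.1.2 i * cb (z i) := by
    intro i
    rw [hp']
    rfl
  have hwp : ∀ i, p.1.2 i ^ 3 = g i := fun i => p.2 i
  have hwp' : ∀ i, p'.1.2 i ^ 3 = g i * z i := fun i => by
    rw [hgz, ← hnew]
    exact p'.2 i
  have hsh : ∀ i, P.sheet p' i = lb (g i * z i) (p'.1.2 i) := fun i => by
    rw [hgz, ← hnew]
    rfl
  have hsh0 : ∀ i, P.sheet p i = lb (g i) (p.1.2 i) := fun i => rfl
  refine ⟨fun hle => ?_, fun hgt => ?_⟩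
  · funext i
    rw [hsh, hsh0]
    apply lb_same (hp i) (hz i) (hwp i) (hwp' i) (hw' i)
    have e1 : (g i).im = - (if Y ≤ 1 / 4 then Y else if Y ≤ 3 / 4 then 1 / 2 - Y else Y - 1) := by
      change (P.G i p.1.1).im = _
      rw [hq]
      exact G_im P i _ hY0.le hY1
    have e2 : (g i * z i).im =
        - (if Y + t ≤ 1 / 4 then Y + t else if Y + t ≤ 3 / 4 then 1 / 2 - (Y + t)
          else Y + t - 1) := by
      rw [hgz, hmv]
      exact G_im P i _ (by linarith) hle
    rcases le_or_gt (1 / 2) Y with hY2 | hY2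
    · apply no_wrap_upper (hp i) (hz i)
      · rw [e1]
        split_ifs <;> linarith
      · rw [e2]
        split_ifs <;> linarith
    · rcases lt_or_ge (Y + t) (1 / 2) with hY3 | hY3
      · apply no_wrap_lower (hp i) (hz i)
        · rw [e1]
          split_ifs <;> linarith
        · rw [e2]
          split_ifs <;> linarith
      · apply no_wrap_right (hz i)
        change 0 < (P.G i p.1.1).re
        rw [hq]
        exact G_re_pos P i _ (by linarith) (by linarith)
  · -- crossing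
    have hgi : ∀ i, g i = ⟨P.dl i (X : UnitAddCircle), 1 - Y⟩ := by
      intro i
      simp only [hgdef]
      rw [hq, ← coe_sub_one Y, G_near P i _ (by rw [abs_le]; constructor <;> linarith)]
      congr 1
      ring
    have hgzi : ∀ i, g i * z i = ⟨P.dl i ((X + P.al * t : ℝ) : UnitAddCircle), 1 - (Y + t)⟩ := by
      intro i
      rw [hgz, hmv, ← coe_sub_one (Y + t),
        G_near P i _ (by rw [abs_le]; constructor <;> linarith)]
      congr 1
      ring
    funext i
    rw [Pi.add_apply, hsh, hsh0]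
    set xc : ℝ := Int.fract (X + (1 - Y) * P.al) with hxc
    have hxc0 : 0 ≤ xc := Int.fract_nonneg _
    have hxc1 : xc < 1 := Int.fract_lt_one _
    -- the value of `G` at the crossing
    have hcr : P.G i (P.mv (1 - Y) p.1.1) = ⟨P.dl i (xc : UnitAddCircle), 0⟩ := by
      have h1 : P.mv (1 - Y) p.1.1 = ((xc : UnitAddCircle), ((0 : ℝ) : UnitAddCircle)) := by
        rw [hq]
        unfold Par.mv
        refine Prod.ext ?_ ?_
        · simp only
          rw [hxc, coe_fract', ← AddCircle.coe_add]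
          congr 1
          ring
        · simp only
          rw [← AddCircle.coe_add, show Y + (1 - Y) = 1 by ring, ← coe_sub_one 1, sub_self]
      rw [h1, G_near P i _ (by rw [abs_zero]; norm_num), neg_zero]
    have hcl := move_le P i p.1.1 (t := 1 - Y) (by linarith) (by linarith)
    rw [hcr] at hcl
    set dc : ℝ := P.dl i (xc : UnitAddCircle) with hdc
    have hgpos : 0 < ‖P.G i p.1.1‖ := norm_pos_iff.mpr (hp i)
    have hre := (Complex.abs_re_le_norm ((⟨dc, 0⟩ : ℂ) - P.G i p.1.1)).trans hcl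
    have him := (Complex.abs_im_le_norm ((⟨dc, 0⟩ : ℂ) - P.G i p.1.1)).trans hcl
    rw [Complex.sub_re] at hre
    rw [Complex.sub_im] at him
    simp only at hre him
    -- `|dc|` is at least `97/100 ‖g‖`
    have hdcn : ‖(⟨dc, 0⟩ : ℂ)‖ = |dc| := by
      rw [show (⟨dc, 0⟩ : ℂ) = (dc : ℂ) from rfl, Complex.norm_real, Real.norm_eq_abs]
    have hdcg : 97 / 100 * ‖P.G i p.1.1‖ ≤ |dc| := by
      have h1 := norm_sub_norm_le (P.G i p.1.1) (⟨dc, 0⟩ : ℂ)
      rw [norm_sub_rev, hdcn] at h1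
      linarith
    have hdc0 : dc ≠ 0 := by
      intro h
      rw [h, abs_zero] at hdcg
      linarith
    have hgre : (P.G i p.1.1).re = (g i).re := rfl
    rcases lt_or_gt_of_ne hdc0 with hneg | hpos
    · -- inside the slit
      have hin := (dl_neg_iff P i hxc0 hxc1).mp hneg
      have hinc : P.inc xc i = 1 := by
        unfold Par.inc
        rw [if_pos ⟨hin.1.le, hin.2⟩]
      rw [hinc]
      apply lb_succ (hp i) (hz i) (hwp i) (hwp' i) (hw' i)
      rw [abs_of_neg hneg] at hdcg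
      apply wrap (hp i) (hz i)
      · have := congrArg Complex.im (hgi i)
        simp only at this
        change (g i).im = _ at this
        change 0 ≤ (g i).im
        rw [this]
        linarith
      · rw [← hgre]
        have h1 := (abs_le.mp hre).1
        linarith
      · rw [hgzi i]
        simp only
        linarith
    · have hinc : P.inc xc i = 0 := by
        unfold Par.inc
        rw [if_neg]
        rintro ⟨h1, h2⟩
        rcases eq_or_lt_of_le h1 with h3 | h3
        · exact hdc0 ((dl_eq_zero_iff P i hxc0 hxc1).mpr (Or.inl h3.symm))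
        · have := (dl_neg_iff P i hxc0 hxc1).mpr ⟨h3, h2⟩
          linarith
      rw [hinc, add_zero]
      apply lb_same (hp i) (hz i) (hwp i) (hwp' i) (hw' i)
      apply no_wrap_right (hz i)
      rw [abs_of_pos hpos] at hdcg
      rw [← hgre]
      have h1 := (abs_le.mp hre).2
      linarith

end Pool.Agent.helper67.Rot
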