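import Mathlib
import Pool.Agent.helper18.Rot.Defs
import Pool.Agent.helper31.Rot.G
import Pool.Agent.helper31.Rot.Cb
import Pool.Agent.helper8.Rot.Birk

/-!
# mod:cost — number of steps needed to reach `L` crossings
-/

open Topology Filter Set
open scoped unitInterval

namespace Pool.Agent.helper67.Rot

open Pool.Agent.helper18.Rot Pool.Agent.helper18.Rot.Par
open Pool.Agent.helper31.Rot
open Pool.Agent.helper8.Rot (Dg traj)

/-! ### A potential -/

/-- The potential `sign(v) log (1 + |v|/d)`. -/
noncomputable def pot (d v : ℝ) : ℝ :=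
  if 0 ≤ v then Real.log (1 + v / d) else - Real.log (1 - v / d)

theorem pot_step {d v v' : ℝ} (hd : 0 < d) (h : v + (d + |v|) / 1000 ≤ v') :
    pot d v + Real.log (1001 / 1000) ≤ pot d v' := by
  unfold pot
  rcases le_or_gt 0 v with hv | hv
  · rw [abs_of_nonneg hv] at h
    have hv' : 0 ≤ v' := by
      have : 0 ≤ (d + v) / 1000 := by positivity
      linarith
    rw [if_pos hv, if_pos hv', ← Real.log_mul (by positivity) (by norm_num)]
    apply Real.log_le_log (by positivity)
    have h1 : (1 + v / d) * (1001 / 1000) = (d + v) * (1001 / 1000) / d := by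
      field_simp
    have h2 : 1 + v' / d = (d + v') / d := by
      field_simp
    rw [h1, h2]
    apply div_le_div_of_nonneg_right _ hd.le
    linarith
  · rw [abs_of_neg hv] at h
    rcases le_or_gt 0 v' with hv' | hv'
    · rw [if_neg (not_le.mpr hv), if_pos hv']
      have h3 : 0 < 1 - v / d := by
        have : v / d < 0 := div_neg_of_neg_of_pos hv hd
        linarith
      have h4 : 0 < 1 + v' / d := by positivity
      have h5 : Real.log (1001 / 1000) ≤ Real.log ((1 - v / d) * (1 + v' / d)) := by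
        apply Real.log_le_log (by norm_num)
        have h1 : (1 - v / d) * (1 + v' / d) = 1 + (v' - v) / d + (-v) * v' / d ^ 2 := by
          field_simp
          ring
        rw [h1]
        have h6 : 0 ≤ (-v) * v' / d ^ 2 := by
          apply div_nonneg (mul_nonneg (by linarith) hv') (by positivity)
        have h7 : 1 / 1000 ≤ (v' - v) / d := by
          rw [le_div_iff₀ hd]
          linarith
        linarith
      rw [Real.log_mul h3.ne' h4.ne'] at h5
      linarith
    · rw [if_neg (not_le.mpr hv), if_neg (not_le.mpr hv')]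
      have h3 : 0 < 1 - v / d := by
        have : v / d < 0 := div_neg_of_neg_of_pos hv hd
        linarith
      have h4 : 0 < 1 - v' / d := by
        have : v' / d < 0 := div_neg_of_neg_of_pos hv' hd
        linarith
      have h5 : Real.log ((1001 / 1000) * (1 - v' / d)) ≤ Real.log (1 - v / d) := by
        apply Real.log_le_log (by positivity)
        have h1 : (1001 / 1000) * (1 - v' / d) = (1001 / 1000) * (d - v') / d := by
          field_simp
        have h2 : 1 - v / d = (d - v) / d := by
          field_simp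
        rw [h1, h2]
        apply div_le_div_of_nonneg_right _ hd.le
        nlinarith
      rw [Real.log_mul (by norm_num) h4.ne'] at h5
      linarith

theorem pot_mono {d v v' : ℝ} (hd : 0 < d) (h : v ≤ v') : pot d v ≤ pot d v' := by
  unfold pot
  have key : v / d ≤ v' / d := div_le_div_of_nonneg_right h hd.le
  rcases le_or_gt 0 v with hv | hv
  · have hv' : 0 ≤ v' := hv.trans h
    rw [if_pos hv, if_pos hv']
    apply Real.log_le_log (by positivity)
    linarith
  · have h3 : v / d < 0 := div_neg_of_neg_of_pos hv hd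
    rcases le_or_gt 0 v' with hv' | hv'
    · rw [if_neg (not_le.mpr hv), if_pos hv']
      have h5 : 0 ≤ v' / d := by positivity
      have h6 : 0 ≤ Real.log (1 + v' / d) := Real.log_nonneg (by linarith)
      have h7 : 0 ≤ Real.log (1 - v / d) := Real.log_nonneg (by linarith)
      linarith
    · rw [if_neg (not_le.mpr hv), if_neg (not_le.mpr hv')]
      have h4 : v' / d < 0 := div_neg_of_neg_of_pos hv' hd
      have := Real.log_le_log (x := 1 - v' / d) (y := 1 - v / d) (by linarith) (by linarith)
      linarith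

theorem pot_half {d : ℝ} (hd : 0 < d) (hd2 : d ≤ 1 / 2) : pot d (1 / 2) ≤ - Real.log d := by
  unfold pot
  rw [if_pos (by norm_num), ← Real.log_inv]
  apply Real.log_le_log (by positivity)
  rw [inv_eq_one_div]
  rw [show (1 : ℝ) + 1 / 2 / d = (d + 1 / 2) / d by field_simp]
  apply div_le_div_of_nonneg_right _ hd.le
  linarith

theorem pot_neg_half {d : ℝ} (hd : 0 < d) (hd2 : d ≤ 1 / 2) :
    Real.log d ≤ pot d (-(1 / 2)) := by
  have h := pot_half hd hd2
  unfold pot at *
  rw [if_pos (by norm_num)] at h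
  rw [if_neg (by norm_num)]
  rw [show (1 : ℝ) - -(1 / 2) / d = 1 + 1 / 2 / d by ring]
  linarith

theorem log_pos' : 0 < Real.log (1001 / 1000) := Real.log_pos (by norm_num)

/-- Escape from `[-1/2, 1/2)`. -/
theorem escape {d : ℝ} (hd : 0 < d) (hd2 : d ≤ 1 / 2) (u : ℕ → ℝ) (h0 : -(1 / 2) ≤ u 0)
    (h0' : u 0 < 1 / 2) (hmono : ∀ k, u k ≤ u (k + 1)) (hup : ∀ k, u (k + 1) ≤ u k + 1 / 100)
    (hstep : ∀ k, |u k| ≤ 1 / 2 → u k + (d + |u k|) / 1000 ≤ u (k + 1)) :
    ∃ k : ℕ, (k : ℝ) ≤ 2 / Real.log (1001 / 1000) * (- Real.log d) + 1 ∧ 1 / 2 ≤ u k ∧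
      u k ≤ 1 / 2 + 1 / 100 := by
  have hc := log_pos'
  have hm : Monotone u := monotone_nat_of_le_succ hmono
  have hge : ∀ k, -(1 / 2) ≤ u k := fun k => h0.trans (hm (Nat.zero_le k))
  have hpot : ∀ k : ℕ, (∀ j < k, u j < 1 / 2) →
      pot d (u 0) + k * Real.log (1001 / 1000) ≤ pot d (u k) := by
    intro k
    induction k with
    | zero => intro _; simp
    | succ k ih =>
      intro hj
      have h1 := ih fun j hj' => hj j (by omega)
      have h2 := pot_step hd (hstep k (by
        rw [abs_le]; exact ⟨hge k, (hj k (by omega)).le⟩))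
      push_cast
      linarith
  have hbd : ∀ k : ℕ, (∀ j ≤ k, u j < 1 / 2) →
      (k : ℝ) ≤ 2 / Real.log (1001 / 1000) * (- Real.log d) := by
    intro k hk
    have h1 := hpot k fun j hj => hk j hj.le
    have h2 : pot d (u k) ≤ - Real.log d := (pot_mono hd (hk k le_rfl).le).trans (pot_half hd hd2)
    have h3 : Real.log d ≤ pot d (u 0) := (pot_neg_half hd hd2).trans (pot_mono hd h0)
    rw [div_mul_eq_mul_div, le_div_iff₀ hc]
    linarith
  have hex : ∃ k, 1 / 2 ≤ u k := by
    by_contra hcon
    push Not at hcon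
    obtain ⟨k, hk⟩ := exists_nat_gt (2 / Real.log (1001 / 1000) * (- Real.log d))
    exact absurd (hbd k fun j _ => hcon j) (not_le.mpr hk)
  classical
  have hk := Nat.find_spec hex
  have hk' : ∀ j < Nat.find hex, u j < 1 / 2 := fun j hj => not_le.mp (Nat.find_min hex hj)
  obtain ⟨m, hm'⟩ : ∃ m, Nat.find hex = m + 1 := by
    apply Nat.exists_eq_succ_of_ne_zero
    intro h
    rw [h] at hk
    linarith
  refine ⟨Nat.find hex, ?_, hk, ?_⟩
  · rw [hm']
    have := hbd m fun j hj => hk' j (by omega)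
    push_cast
    linarith
  · have h1 := hup m
    have h2 := hk' m (by omega)
    rw [hm']
    linarith

variable (P : Par)

/-- distance of the `i`-th crossing to the four end points -/
noncomputable def dd (x : ℝ) (i : ℕ) : ℝ :=
  min (min (P.dlo x i 0) (P.dhi x i 0)) (min (P.dlo x i 1) (P.dhi x i 1))

theorem norm_le_half' (z : UnitAddCircle) : ‖z‖ ≤ 1 / 2 := by
  have := AddCircle.norm_le_half_period (1 : ℝ) (x := z) one_ne_zero
  simpa using this

theorem neg_log_nonneg {t : ℝ} (h0 : 0 ≤ t) (h : t ≤ 1 / 2) : 0 ≤ - Real.log t := by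
  have := Real.log_nonpos h0 (by linarith)
  linarith

theorem dd_le (x : ℝ) (i : ℕ) : dd P x i ≤ 1 / 2 := by
  unfold dd
  refine (min_le_left _ _).trans ((min_le_left _ _).trans ?_)
  exact norm_le_half' _

theorem dd_pos {x : ℝ} {i : ℕ} (h : ∀ j, P.dlo x i j ≠ 0 ∧ P.dhi x i j ≠ 0) : 0 < dd P x i := by
  unfold dd
  have h1 : ∀ j, 0 < P.dlo x i j := fun j => lt_of_le_of_ne (norm_nonneg _) (h j).1.symm
  have h2 : ∀ j, 0 < P.dhi x i j := fun j => lt_of_le_of_ne (norm_nonneg _) (h j).2.symm
  exact lt_min (lt_min (h1 0) (h2 0)) (lt_min (h1 1) (h2 1))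

theorem neg_log_dd_le (x : ℝ) (i : ℕ) :
    - Real.log (dd P x i) ≤ ∑ j, (- Real.log (P.dlo x i j) - Real.log (P.dhi x i j)) := by
  rw [Fin.sum_univ_two]
  have h1 : ∀ j, 0 ≤ - Real.log (P.dlo x i j) := fun j =>
    neg_log_nonneg (norm_nonneg _) (norm_le_half' _)
  have h2 : ∀ j, 0 ≤ - Real.log (P.dhi x i j) := fun j =>
    neg_log_nonneg (norm_nonneg _) (norm_le_half' _)
  have a1 := h1 0
  have a2 := h1 1
  have a3 := h2 0
  have a4 := h2 1
  unfold dd
  rcases min_choice (min (P.dlo x i 0) (P.dhi x i 0)) (min (P.dlo x i 1) (P.dhi x i 1)) with h | h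
  · rw [h]
    rcases min_choice (P.dlo x i 0) (P.dhi x i 0) with h | h <;> rw [h] <;> linarith
  · rw [h]
    rcases min_choice (P.dlo x i 1) (P.dhi x i 1) with h | h <;> rw [h] <;> linarith

theorem cost_succ (x : ℝ) (l : ℕ) :
    P.cost x (l + 1) = P.cost x l +
      ∑ j, (- Real.log (P.dlo x l j) - Real.log (P.dhi x l j)) := by
  unfold Par.cost
  rw [Finset.sum_range_succ]

theorem cost_nonneg (x : ℝ) (l : ℕ) : 0 ≤ P.cost x l := by
  unfold Par.cost
  refine Finset.sum_nonneg fun i _ => Finset.sum_nonneg fun j _ => ?_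
  have h1 : 0 ≤ - Real.log (P.dlo x i j) := neg_log_nonneg (norm_nonneg _) (norm_le_half' _)
  have h2 : 0 ≤ - Real.log (P.dhi x i j) := neg_log_nonneg (norm_nonneg _) (norm_le_half' _)
  linarith

/-- lower bound of `tau` at height `l + 1 + v` -/
theorem tau_ge (x : ℝ) (l : ℕ) {v : ℝ} (hv : |v| ≤ 1 / 2) :
    (dd P x l + |v|) / 1000 ≤
      P.tau (((x + l * P.al + P.al * v : ℝ) : UnitAddCircle), (v : UnitAddCircle)) := by
  have key : ∀ j : Fin 2, dd P x l ≤ min (P.dlo x l j) (P.dhi x l j) →
      (dd P x l + |v|) / 10 ≤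
        ‖P.G j (((x + l * P.al + P.al * v : ℝ) : UnitAddCircle), (v : UnitAddCircle))‖ := by
    intro j hj
    have h1 := le_norm_G P j (((x + l * P.al + P.al * v : ℝ) : UnitAddCircle), (v : UnitAddCircle))
    have h2 : ‖(v : UnitAddCircle)‖ = |v| := by
      rw [AddCircle.norm_coe_eq_abs_iff (1 : ℝ) one_ne_zero]
      simpa using hv
    have h3 := le_abs_dl P j (x + l * P.al)
    have h4 := dl_lip P j ((x + l * P.al : ℝ) : UnitAddCircle) (P.al * v)
    simp only at h1
    rw [h2] at h1
    have h5 : |P.al * v| ≤ 1 / 8 * |v| := by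
      rw [abs_mul, abs_of_pos P.al_pos]
      exact mul_le_mul_of_nonneg_right P.al_lt.le (abs_nonneg v)
    have h6 : ((x + l * P.al : ℝ) : UnitAddCircle) + ((P.al * v : ℝ) : UnitAddCircle) =
        ((x + l * P.al + P.al * v : ℝ) : UnitAddCircle) := rfl
    rw [h6] at h4
    have h7 := abs_sub_abs_le_abs_sub (P.dl j ((x + l * P.al : ℝ) : UnitAddCircle))
      (P.dl j ((x + l * P.al + P.al * v : ℝ) : UnitAddCircle))
    rw [abs_sub_comm] at h7
    have h8 : min (P.dlo x l j) (P.dhi x l j) ≤ |P.dl j ((x + l * P.al : ℝ) : UnitAddCircle)| := h3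
    have h9 : 0 ≤ |v| := abs_nonneg v
    have h10 : dd P x l ≤ 1 / 2 := dd_le P x l
    have h11 : 0 ≤ dd P x l := by
      unfold dd
      exact le_min (le_min (norm_nonneg _) (norm_nonneg _)) (le_min (norm_nonneg _) (norm_nonneg _))
    have h12 : dd P x l - 1 / 8 * |v| ≤
        |P.dl j ((x + l * P.al + P.al * v : ℝ) : UnitAddCircle)| := by linarith
    have h13 : (dd P x l + |v|) / 10 ≤ (|P.dl j ((x + l * P.al + P.al * v : ℝ) : UnitAddCircle)|
      + |v|) / 8 := by linarith
    linarith
  have k0 := key 0 (min_le_left _ _)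
  have k1 := key 1 (min_le_right _ _)
  unfold Par.tau
  have := le_min k0 k1
  linarith

theorem tau_le (q : UnitAddCircle × UnitAddCircle) : P.tau q ≤ 1 / 100 := by
  unfold Par.tau
  have := (min_le_left ‖P.G 0 q‖ ‖P.G 1 q‖).trans (norm_G_le P 0 q)
  linarith

theorem tau_nonneg (q : UnitAddCircle × UnitAddCircle) : 0 ≤ P.tau q := by
  unfold Par.tau
  have := le_min (norm_nonneg (P.G 0 q)) (norm_nonneg (P.G 1 q))
  linarith

/-- There is a point in every sheet over every `q` with `G_i(q) ≠ 0`. -/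
theorem exists_sheet (q : UnitAddCircle × UnitAddCircle) (hq : ∀ i, P.G i q ≠ 0) (s : Ga) :
    ∃ p : P.Surf, p.1.1 = q ∧ P.sheet p = s := by
  have h1 : ∀ i, (om ^ (s i).val * cb (P.G i q)) ^ 3 = P.G i q := by
    intro i
    rw [mul_pow, cb_pow, ← pow_mul, mul_comm (s i).val 3, pow_mul, om_pow, one_pow, one_mul]
  refine ⟨⟨(q, fun i => om ^ (s i).val * cb (P.G i q)), h1⟩, rfl, ?_⟩
  funext i
  exact (eq_lb_iff (hq i) (h1 i) (s i)).mpr rfl

theorem lower (F : IdIsotopy P.Surf)
    (hF : ∀ (t : I) (p : P.Surf), (F.toMap (t, p)).1 = P.psi (t * P.tau p.1.1) p.1) :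
    ∃ C : ℝ, ∀ x : ℝ, 0 ≤ x → x < 1 → ∀ (s : Ga) (L : ℕ),
      (∀ i < L, ∀ j, P.dlo x i j ≠ 0 ∧ P.dhi x i j ≠ 0) →
      ∃ (p : P.Surf) (n : ℕ), L ≤ n ∧ (n : ℝ) ≤ C * (1 + L + P.cost x L) ∧
        ∀ g, |∑ i ∈ Finset.range n, Dg P g (F.f^[i] p) - P.Cnt x L (g - s)| ≤ 2 := by
  have hc := log_pos'
  have hc2 : 0 < 2 / Real.log (1001 / 1000) := by positivity
  refine ⟨1 + 2 / Real.log (1001 / 1000), fun x hx0 hx1 s L hL => ?_⟩
  have hhalf : ‖(((1 / 2 : ℝ)) : UnitAddCircle)‖ = 1 / 2 := by
    rw [(AddCircle.norm_coe_eq_abs_iff (1 : ℝ) one_ne_zero).mpr]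
    · rw [abs_of_pos (by norm_num)]
    · rw [abs_of_pos (by norm_num)]; norm_num
  obtain ⟨p, hp1, hp2⟩ := exists_sheet P (((x - P.al / 2 : ℝ) : UnitAddCircle),
    (((1 / 2 : ℝ)) : UnitAddCircle)) (fun i => by
      intro h
      have := le_norm_G P i (((x - P.al / 2 : ℝ) : UnitAddCircle), (((1 / 2 : ℝ)) : UnitAddCircle))
      rw [h, norm_zero] at this
      simp only at this
      rw [hhalf] at this
      have h0 := abs_nonneg (P.dl i ((x - P.al / 2 : ℝ) : UnitAddCircle))
      linarith) s
  have hpG : ∀ i, P.G i p.1.1 ≠ 0 := by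
    intro i h
    have := le_norm_G P i p.1.1
    rw [h, norm_zero, hp1] at this
    simp only at this
    rw [hhalf] at this
    have h0 := abs_nonneg (P.dl i ((x - P.al / 2 : ℝ) : UnitAddCircle))
    linarith
  have htr := fun n => traj P F hF p hpG (X := x - P.al / 2) (Y := 1 / 2) (by rw [hp1])
    (by rw [hp1]) (by norm_num) (by norm_num) n
  simp only at htr
  set T : ℕ → ℝ := fun n => ∑ i ∈ Finset.range n, P.tau (F.f^[i] p).1.1 with hT
  have hTs : ∀ n, T (n + 1) = T n + P.tau (F.f^[n] p).1.1 := fun n => by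
    simp only [hT]
    rw [Finset.sum_range_succ]
  have hpos : ∀ n, (F.f^[n] p).1.1 = (((x - P.al / 2 + P.al * T n : ℝ) : UnitAddCircle),
    ((1 / 2 + T n : ℝ) : UnitAddCircle)) := fun n => (htr n).2.1
  -- induction on the number of crossings
  have hind : ∀ l : ℕ, l ≤ L → ∃ n : ℕ, (n : ℝ) ≤ l + 2 / Real.log (1001 / 1000) * P.cost x l ∧
      (l : ℝ) ≤ T n ∧ T n ≤ l + 1 / 100 := by
    intro l
    induction l with
    | zero =>
      intro _
      refine ⟨0, ?_, ?_, ?_⟩
      · have := cost_nonneg P x 0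
        push_cast
        positivity
      · simp [hT]
      · simp [hT]
    | succ l ih =>
      intro hl
      obtain ⟨n, hn1, hn2, hn3⟩ := ih (by omega)
      have hd := dd_pos P (hL l (by omega))
      obtain ⟨k, hk1, hk2, hk3⟩ := escape hd (dd_le P x l) (fun k => T (n + k) - l - 1 / 2)
        (by simp only [add_zero]; linarith) (by simp only [add_zero]; linarith)
        (fun k => by
          have := hTs (n + k)
          have h2 := tau_nonneg P (F.f^[n + k] p).1.1
          simp only [← add_assoc]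
          linarith)
        (fun k => by
          have := hTs (n + k)
          have h2 := tau_le P (F.f^[n + k] p).1.1
          simp only [← add_assoc]
          linarith)
        (fun k hk => by
          have h1 := hTs (n + k)
          have h2 := tau_ge P x l hk
          have h3 : (F.f^[n + k] p).1.1 =
            (((x + l * P.al + P.al * (T (n + k) - l - 1 / 2) : ℝ) : UnitAddCircle),
              ((T (n + k) - l - 1 / 2 : ℝ) : UnitAddCircle)) := by
            rw [hpos (n + k)]
            refine Prod.ext ?_ ?_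
            · simp only
              congr 1
              ring
            · simp only
              have h4 : (1 / 2 + T (n + k) : ℝ) = (T (n + k) - l - 1 / 2) + ((l + 1 : ℕ) : ℝ) := by
                push_cast
                ring
              rw [h4, AddCircle.coe_add]
              have h5 : ((((l + 1 : ℕ) : ℝ)) : UnitAddCircle) = 0 := by
                rw [AddCircle.coe_eq_zero_iff]
                exact ⟨(l + 1 : ℕ), by simp⟩
              rw [h5, add_zero]
          rw [← h3] at h2
          simp only [← add_assoc]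
          linarith)
      refine ⟨n + k, ?_, ?_, ?_⟩
      · rw [cost_succ]
        have h6 := neg_log_dd_le P x l
        have h7 : 2 / Real.log (1001 / 1000) * (- Real.log (dd P x l)) ≤
            2 / Real.log (1001 / 1000) *
              ∑ j, (- Real.log (P.dlo x l j) - Real.log (P.dhi x l j)) :=
          mul_le_mul_of_nonneg_left h6 hc2.le
        push_cast
        rw [mul_add]
        linarith
      · push_cast
        linarith
      · push_cast
        linarith
  obtain ⟨n, hn1, hn2, hn3⟩ := hind L le_rfl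
  refine ⟨p, n, ?_, ?_, ?_⟩
  · have h1 : T n ≤ n * (1 / 100) := by
      simp only [hT]
      have := Finset.sum_le_card_nsmul (Finset.range n) (fun i => P.tau (F.f^[i] p).1.1) (1 / 100)
        (fun i _ => tau_le P _)
      simpa using this
    have h2 : (L : ℝ) ≤ n := by
      have : (0 : ℝ) ≤ n := Nat.cast_nonneg n
      linarith
    exact_mod_cast h2
  · have h0 := cost_nonneg P x L
    have h1 : (0 : ℝ) ≤ L := Nat.cast_nonneg L
    have h2 : 0 ≤ 2 / Real.log (1001 / 1000) * (1 + L) := by positivity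
    have h3 : (1 + 2 / Real.log (1001 / 1000)) * (1 + L + P.cost x L) =
      1 + L + P.cost x L + 2 / Real.log (1001 / 1000) * (1 + L) +
        2 / Real.log (1001 / 1000) * P.cost x L := by ring
    rw [h3]
    linarith
  · intro g
    have h1 := (htr n).2.2.2 g
    have h2 : Int.fract (x - P.al / 2 + (1 - 1 / 2) * P.al) = x := by
      rw [show x - P.al / 2 + (1 - 1 / 2) * P.al = x by ring]
      exact Int.fract_eq_self.mpr ⟨hx0, hx1⟩
    have h3 : ⌈(1 / 2 : ℝ) + T n⌉₊ - 1 = L := by
      have : ⌈(1 / 2 : ℝ) + T n⌉₊ = L + 1 := by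
        rw [Nat.ceil_eq_iff (by omega)]
        rw [Nat.add_sub_cancel]
        constructor
        · linarith
        · push_cast
          linarith
      omega
    rw [h2, hp2] at h1
    rw [show (∑ i ∈ Finset.range n, P.tau (F.f^[i] p).1.1) = T n from rfl, h3] at h1
    exact h1

end Pool.Agent.helper67.Rot
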